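import Pool.Agent.Helper841.FDInt

/-!
# A Lipschitz map of finite distortion in three dimensions with `K ∈ L²` that is not open

Disproof of the Iwaniec-Sverak openness conjecture for `K_f ∈ L^{n-1}` (case `n = 3`).
-/

set_option autoImplicit false
open MeasureTheory

namespace Pool.Agent.Results.MP_8dcfde_an.NotOpen

/-- Euclidean three-space -/
abbrev E3 := EuclideanSpace ℝ (Fin 3)

/-- fields of linear maps -/
abbrev LField := E3 → E3 →L[ℝ] E3

/-- bounded convex domains -/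
def BoundedConvexDomain (Ω : Set E3) : Prop :=
  IsOpen Ω ∧ IsConnected Ω ∧ Convex ℝ Ω ∧ Bornology.IsBounded Ω

/-- `Df` is the weak differential of `f` on `Ω`, tested with smooth functions of compact support
in `Ω` -/
def WeakDiff (Ω : Set E3) (f : E3 → E3) (Df : LField) : Prop :=
  ∀ φ : E3 → ℝ, ContDiff ℝ ((⊤ : ℕ∞) : WithTop ℕ∞) φ → HasCompactSupport φ → tsupport φ ⊆ Ω →
    ∀ v : E3, ∫ x in Ω, (fderiv ℝ φ x v) • f x = - ∫ x in Ω, φ x • Df x v

/-- `f` is in `W^{1,3}(Ω, ℝ³)` with weak differential `Df` -/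
def Sobolev (Ω : Set E3) (f : E3 → E3) (Df : LField) : Prop :=
  MemLp f 3 (volume.restrict Ω) ∧ MemLp Df 3 (volume.restrict Ω) ∧ WeakDiff Ω f Df

/-- the Jacobian determinant -/
noncomputable def Jac (Df : LField) (x : E3) : ℝ := LinearMap.det (Df x).toLinearMap

/-- the distortion function `K_f` -/
noncomputable def Kf (Df : LField) (x : E3) : ℝ :=
  if 0 < Jac Df x then ‖Df x‖ ^ 3 / Jac Df x else 1

/-- finite distortion: the Jacobian determinant is integrable on `Ω`, and there is a measurable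
function `K ≥ 1` with `|Df|³ ≤ K J` almost everywhere on `Ω` -/
def FinDist (Ω : Set E3) (Df : LField) : Prop :=
  IntegrableOn (Jac Df) Ω volume ∧
  ∃ K : E3 → ℝ, Measurable K ∧ (∀ x, 1 ≤ K x) ∧
    ∀ᵐ x ∂(volume.restrict Ω), ‖Df x‖ ^ 3 ≤ K x * Jac Df x

/-- the Jacobian determinant is positive almost everywhere on `Ω` -/
def JacPos (Ω : Set E3) (Df : LField) : Prop := ∀ᵐ x ∂(volume.restrict Ω), 0 < Jac Df x

/-- the distortion function is in `L²(Ω)` -/
def KfL2 (Ω : Set E3) (Df : LField) : Prop := MemLp (Kf Df) 2 (volume.restrict Ω)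

/-- There are a bounded, open, convex `Ω ⊆ ℝ³` and a Lipschitz map `f` on `Ω`, with weak
differential `Df`, such that `f` is a non-constant `W^{1,3}` map of finite distortion with
positive Jacobian determinant almost everywhere and `K_f ∈ L²(Ω)`, and `f(Ω)` is not open. -/
theorem result :
    ∃ (Ω : Set E3) (f : E3 → E3) (Df : LField),
      BoundedConvexDomain Ω ∧ LipschitzOnWith 60 f Ω ∧ Sobolev Ω f Df ∧
      FinDist Ω Df ∧ JacPos Ω Df ∧ KfL2 Ω Df ∧
      (¬ ∃ c : E3, ∀ x ∈ Ω, f x = c) ∧ ¬ IsOpen (f '' Ω) := by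
  classical
  have hm : Measurable (fderiv ℝ Pool.Agent.Helper841.FD.F) := measurable_fderiv ℝ _
  have hJ : ∀ x, Jac (fderiv ℝ Pool.Agent.Helper841.FD.F) x =
      LinearMap.det (fderiv ℝ Pool.Agent.Helper841.FD.F x).toLinearMap := fun x => rfl
  have hK : ∀ x, Kf (fderiv ℝ Pool.Agent.Helper841.FD.F) x =
      if 0 < Jac (fderiv ℝ Pool.Agent.Helper841.FD.F) x then
        ‖fderiv ℝ Pool.Agent.Helper841.FD.F x‖ ^ 3 /
          Jac (fderiv ℝ Pool.Agent.Helper841.FD.F) x else 1 := fun x => rfl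
  have hJm : Measurable (Jac (fderiv ℝ Pool.Agent.Helper841.FD.F)) :=
    ContinuousLinearMap.continuous_det.measurable.comp hm
  have hKm : Measurable (Kf (fderiv ℝ Pool.Agent.Helper841.FD.F)) :=
    Measurable.ite (measurableSet_lt measurable_const hJm) ((hm.norm.pow_const 3).div hJm)
      measurable_const
  have hJpos : ∀ᵐ x ∂(volume.restrict Pool.Agent.Helper841.FD.Om),
      0 < Jac (fderiv ℝ Pool.Agent.Helper841.FD.F) x := Pool.Agent.Helper841.FD.F_det_ae
  refine ⟨Pool.Agent.Helper841.FD.Om, Pool.Agent.Helper841.FD.F,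
    fderiv ℝ Pool.Agent.Helper841.FD.F, ⟨Pool.Agent.Helper841.FD.Om_open,
    ⟨⟨0, Pool.Agent.Helper841.FD.zero_mem⟩, Pool.Agent.Helper841.FD.Om_convex.isPreconnected⟩,
    Pool.Agent.Helper841.FD.Om_convex,
    Metric.isBounded_closedBall.subset Pool.Agent.Helper841.FD.Om_bdd⟩,
    Pool.Agent.Helper841.FD.F_lipOn,
    ⟨Pool.Agent.Helper841.FD.F_memLp, Pool.Agent.Helper841.FD.DF_memLp, ?_⟩, ⟨?_, ?_⟩, hJpos,
    Pool.Agent.Helper841.FD.K_memLp _ _ hJ hK, Pool.Agent.Helper841.FD.F_nonconst,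
    Pool.Agent.Helper841.FD.F_not_open⟩
  · intro φ hφ hc hs v
    exact Pool.Agent.Helper841.FD.weakF φ (hφ.of_le (by exact_mod_cast le_top)) hc hs v
  · have hfin : volume Pool.Agent.Helper841.FD.Om ≠ ⊤ := Pool.Agent.Helper841.FD.Om_finite.ne
    refine Measure.integrableOn_of_bounded (M := 2) hfin hJm.aestronglyMeasurable ?_
    rw [ae_restrict_iff' Pool.Agent.Helper841.FD.Om_open.measurableSet]
    filter_upwards [Pool.Agent.Helper841.FD.F_good] with x hx hO
    obtain ⟨A, h1, h2, h3, h4⟩ := hx hO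
    have hJx : Jac (fderiv ℝ Pool.Agent.Helper841.FD.F) x = Pool.Agent.Helper841.FD.RR x *
        Pool.Agent.Helper841.FD.Lg (Pool.Agent.Helper841.FD.RR x) := by
      rw [hJ, h1.fderiv]; exact h2
    rw [hJx, Real.norm_of_nonneg (Pool.Agent.Helper841.FD.det_pos hO h4).le]
    exact Pool.Agent.Helper841.FD.rLg_le h4
  · refine ⟨fun x => max 1 (Kf (fderiv ℝ Pool.Agent.Helper841.FD.F) x),
      measurable_const.max hKm, fun x => le_max_left _ _, ?_⟩
    filter_upwards [hJpos] with x hx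
    have h1 : ‖fderiv ℝ Pool.Agent.Helper841.FD.F x‖ ^ 3 =
        Kf (fderiv ℝ Pool.Agent.Helper841.FD.F) x *
          Jac (fderiv ℝ Pool.Agent.Helper841.FD.F) x := by
      rw [hK, if_pos hx]
      field_simp
    rw [h1]
    exact mul_le_mul_of_nonneg_right (le_max_right _ _) hx.le

end Pool.Agent.Results.MP_8dcfde_an.NotOpen
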